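import Mathlib
import Pool.Agent.H892Z.Per.Lin

/-!
The family `y² = x⁵ + s x`, `s ≠ 0`, of smooth genus two curves over the rationals has pairwise
isomorphic fibres, and at every fourth power of a positive rational number there is a linear
relation with rational coefficients between the periods that fails on the fibre of the closure
of the graph of the period map.
-/

set_option autoImplicit false

namespace Pool.Agent.Results.MP_290158_ag.ALinearRelation

open Pool.Agent.H892Z.Per Polynomial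

theorem result :
    (∀ s : ℂ, s ≠ 0 → (X ^ 5 + C s * X : ℂ[X]).Separable) ∧
    (∀ s s' : ℂ, s ≠ 0 → s' ≠ 0 → ∃ l m : ℂ, l ≠ 0 ∧ m ≠ 0 ∧ ∀ x y : ℂ,
      y ^ 2 = x ^ 5 + s * x ↔ (m * y) ^ 2 = (l * x) ^ 5 + s' * (l * x)) ∧
    ∃ P : ℂ → Matrix (Fin 4) (Fin 4) ℂ, IsPeriodMap Complex.slitPlane P ∧
      (∀ j i, DifferentiableOn ℂ (fun s => P s j i) Complex.slitPlane) ∧
      ∀ δ : ℕ, 1 ≤ δ → ∀ t : ℚ, 0 < t → ∃ Ψ : MvPolynomial (Fin 4 × Fin 4) ℚ,
        Ψ.totalDegree ≤ δ ∧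
        (∀ M ∈ pointClosure (P ((t : ℂ) ^ 4)),
          MvPolynomial.aeval (fun ij : Fin 4 × Fin 4 => M ij.1 ij.2) Ψ = 0) ∧
        ∃ M ∈ graphClosureFibre Complex.slitPlane P ((t : ℂ) ^ 4),
          MvPolynomial.aeval (fun ij : Fin 4 × Fin 4 => M ij.1 ij.2) Ψ ≠ 0 := by
  refine ⟨quintic_separable, fibres_iso, fun s => QQ (rt s), isPeriodMap,
    fun j i s hs => ?_, fun δ hδ t ht => ?_⟩
  · exact (QQ_diff ((rt_diff s hs).differentiableAt (Complex.isOpen_slitPlane.mem_nhds hs))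
      (rt_ne s) j i).differentiableWithinAt
  · obtain ⟨Ψ, h1, h2⟩ := linear_relation t ht
    exact ⟨Ψ, h1.trans hδ, h2⟩

end Pool.Agent.Results.MP_290158_ag.ALinearRelation
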